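import Mathlib

set_option autoImplicit false

/-!
# Moments of the number of divisors up to `K`, and sums of it over sparse sets
-/

namespace Pool.Agent.V8H10.LK

open Finset

/-- the number of divisors of `m` up to `K` -/
def dK (K m : ℕ) : ℕ := ((Icc 1 K).filter (fun k => k ∣ m)).card

lemma dK_mul_le (K a b : ℕ) (ha : a ≠ 0) : dK K (a * b) ≤ a.divisors.card * dK K b := by
  classical
  unfold dK
  rw [← card_product]
  refine card_le_card_of_injOn (fun k => (Nat.gcd k a, k / Nat.gcd k a)) ?_ ?_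
  · intro k hk
    simp only [coe_filter, mem_Icc, Set.mem_setOf_eq] at hk
    obtain ⟨⟨hk1, hk2⟩, hk3⟩ := hk
    have hg : 0 < Nat.gcd k a := Nat.gcd_pos_of_pos_left _ hk1
    simp only [coe_product, coe_filter, Set.mem_prod, mem_coe, Nat.mem_divisors, mem_Icc,
      Set.mem_setOf_eq]
    refine ⟨⟨Nat.gcd_dvd_right k a, ha⟩, ⟨?_, ?_⟩, ?_⟩
    · exact Nat.div_pos (Nat.le_of_dvd hk1 (Nat.gcd_dvd_left k a)) hg
    · exact (Nat.div_le_self _ _).trans hk2
    · have h1 : k / Nat.gcd k a ∣ (a / Nat.gcd k a) * b := by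
        have h2 : Nat.gcd k a * (k / Nat.gcd k a) ∣ Nat.gcd k a * ((a / Nat.gcd k a) * b) := by
          rw [Nat.mul_div_cancel' (Nat.gcd_dvd_left k a), ← mul_assoc,
            Nat.mul_div_cancel' (Nat.gcd_dvd_right k a)]
          exact hk3
        exact Nat.dvd_of_mul_dvd_mul_left hg h2
      exact (Nat.coprime_div_gcd_div_gcd hg).dvd_of_dvd_mul_left h1
  · intro k hk k' hk' h
    simp only [Prod.mk.injEq] at h
    have h1 : k = Nat.gcd k a * (k / Nat.gcd k a) :=
      (Nat.mul_div_cancel' (Nat.gcd_dvd_left k a)).symm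
    have h2 : k' = Nat.gcd k' a * (k' / Nat.gcd k' a) :=
      (Nat.mul_div_cancel' (Nat.gcd_dvd_left k' a)).symm
    rw [h1, h2, h.2, h.1]

/-- the factor of the moment bound -/
noncomputable def BB (Q K : ℕ) : ℝ := ∑ k ∈ Icc 1 K, ((k.divisors.card : ℝ) ^ Q) / k

lemma moment (Q K : ℕ) (q : ℕ) (hq : q ≤ Q + 1) : ∀ M : ℕ,
    ∑ m ∈ Icc 1 M, (dK K m : ℝ) ^ q ≤ M * BB Q K ^ q := by
  induction q with
  | zero =>
    intro M
    simp
  | succ q ih =>
    intro M
    have hB : 0 ≤ BB Q K := sum_nonneg fun k _ => by positivity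
    have e1 : ∀ m : ℕ, (dK K m : ℝ) ^ (q + 1) =
        ∑ k ∈ Icc 1 K, if k ∣ m then (dK K m : ℝ) ^ q else 0 := by
      intro m
      rw [← sum_filter, sum_const, nsmul_eq_mul, pow_succ, mul_comm]
      rfl
    calc ∑ m ∈ Icc 1 M, (dK K m : ℝ) ^ (q + 1)
        = ∑ m ∈ Icc 1 M, ∑ k ∈ Icc 1 K, if k ∣ m then (dK K m : ℝ) ^ q else 0 :=
          sum_congr rfl fun m _ => e1 m
      _ = ∑ k ∈ Icc 1 K, ∑ m ∈ Icc 1 M, if k ∣ m then (dK K m : ℝ) ^ q else 0 := sum_comm
      _ ≤ ∑ k ∈ Icc 1 K, ((k.divisors.card : ℝ) ^ Q / k) * (M * BB Q K ^ q) := by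
          apply sum_le_sum
          intro k hk
          have hk1 : 1 ≤ k := (mem_Icc.1 hk).1
          have hk0 : (0 : ℝ) < k := by exact_mod_cast hk1
          have h2 : ∑ m ∈ Icc 1 M, (if k ∣ m then (dK K m : ℝ) ^ q else 0) =
              ∑ m' ∈ Icc 1 (M / k), (dK K (k * m') : ℝ) ^ q := by
            rw [← sum_filter]
            symm
            apply sum_bij (fun m' _ => k * m')
            · intro m' hm'
              rw [mem_Icc] at hm'
              rw [mem_filter, mem_Icc]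
              refine ⟨⟨Nat.mul_pos hk1 hm'.1, ?_⟩, dvd_mul_right _ _⟩
              calc k * m' ≤ k * (M / k) := Nat.mul_le_mul_left _ hm'.2
                _ ≤ M := Nat.mul_div_le _ _
            · intro a _ b _ h
              exact Nat.eq_of_mul_eq_mul_left hk1 h
            · intro m hm
              rw [mem_filter, mem_Icc] at hm
              obtain ⟨c, hc⟩ := hm.2
              refine ⟨c, ?_, hc.symm⟩
              rw [mem_Icc]
              constructor
              · rcases Nat.eq_zero_or_pos c with h | h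
                · rw [h] at hc; simp at hc; omega
                · exact h
              · rw [Nat.le_div_iff_mul_le hk1, mul_comm, ← hc]
                exact hm.1.2
            · intro _ _; rfl
          rw [h2]
          have h3 : ∀ m' ∈ Icc 1 (M / k), (dK K (k * m') : ℝ) ^ q ≤
              (k.divisors.card : ℝ) ^ q * (dK K m' : ℝ) ^ q := by
            intro m' _
            rw [← mul_pow]
            apply pow_le_pow_left₀ (by positivity)
            exact_mod_cast dK_mul_le K k m' (by omega)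
          have hτ1 : (1 : ℝ) ≤ (k.divisors.card : ℝ) := by
            have : 0 < k.divisors.card := card_pos.2 ⟨1, Nat.one_mem_divisors.2 (by omega)⟩
            exact_mod_cast this
          calc ∑ m' ∈ Icc 1 (M / k), (dK K (k * m') : ℝ) ^ q
              ≤ ∑ m' ∈ Icc 1 (M / k), (k.divisors.card : ℝ) ^ q * (dK K m' : ℝ) ^ q :=
                sum_le_sum h3
            _ = (k.divisors.card : ℝ) ^ q * ∑ m' ∈ Icc 1 (M / k), (dK K m' : ℝ) ^ q := by
                rw [mul_sum]
            _ ≤ (k.divisors.card : ℝ) ^ Q * (((M / k : ℕ) : ℝ) * BB Q K ^ q) := by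
                apply mul_le_mul (pow_le_pow_right₀ hτ1 (by omega)) (ih (by omega) _)
                  (sum_nonneg fun _ _ => by positivity) (by positivity)
            _ ≤ (k.divisors.card : ℝ) ^ Q * (((M : ℝ) / k) * BB Q K ^ q) := by
                gcongr
                exact Nat.cast_div_le
            _ = ((k.divisors.card : ℝ) ^ Q / k) * (M * BB Q K ^ q) := by
                field_simp
      _ = M * BB Q K ^ (q + 1) := by
          rw [← sum_mul]
          unfold BB
          ring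

lemma SS_sq (Q K : ℕ) : ∑ k ∈ Icc 1 K, ((k.divisors.card : ℝ) ^ (Q + 1)) / k ≤
    (∑ k ∈ Icc 1 K, ((k.divisors.card : ℝ) ^ Q) / k) ^ 2 := by
  classical
  have e1 : ∀ k ∈ Icc 1 K, ((k.divisors.card : ℝ) ^ (Q + 1)) / k =
      ∑ z ∈ k.divisorsAntidiagonal, ((k.divisors.card : ℝ) ^ Q) / k := by
    intro k _
    have hc : k.divisorsAntidiagonal.card = k.divisors.card := by
      rw [← Nat.map_div_right_divisors, card_map]
    rw [sum_const, nsmul_eq_mul, hc, pow_succ]
    ring
  rw [sum_congr rfl e1, sq, sum_mul_sum, ← sum_product', sum_sigma']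
  calc ∑ x ∈ (Icc 1 K).sigma fun k => k.divisorsAntidiagonal,
        ((x.1.divisors.card : ℝ) ^ Q) / (x.1 : ℝ)
      ≤ ∑ x ∈ (Icc 1 K).sigma fun k => k.divisorsAntidiagonal,
        ((x.2.1.divisors.card : ℝ) ^ Q) / (x.2.1 : ℝ) *
          (((x.2.2.divisors.card : ℝ) ^ Q) / (x.2.2 : ℝ)) := by
        apply sum_le_sum
        rintro ⟨k, d, e⟩ hx
        simp only [mem_sigma, mem_Icc, Nat.mem_divisorsAntidiagonal] at hx
        obtain ⟨⟨h1, h2⟩, h3, h4⟩ := hx
        simp only
        subst h3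
        have hd : 0 < d := Nat.pos_of_ne_zero fun h => by simp [h] at h4
        have he : 0 < e := Nat.pos_of_ne_zero fun h => by simp [h] at h4
        have hd' : (0 : ℝ) < d := by exact_mod_cast hd
        have he' : (0 : ℝ) < e := by exact_mod_cast he
        rw [div_mul_div_comm, ← mul_pow, Nat.cast_mul]
        apply div_le_div_of_nonneg_right _ (by positivity)
        apply pow_le_pow_left₀ (by positivity)
        have : (d * e).divisors.card ≤ d.divisors.card * e.divisors.card := by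
          rw [Nat.divisors_mul]
          exact card_mul_le
        exact_mod_cast this
    _ ≤ ∑ x ∈ (Icc 1 K) ×ˢ (Icc 1 K), ((x.1.divisors.card : ℝ) ^ Q) / (x.1 : ℝ) *
          (((x.2.divisors.card : ℝ) ^ Q) / (x.2 : ℝ)) := by
        have hinj : Set.InjOn (fun x : (_ : ℕ) × (ℕ × ℕ) => x.2)
            ((Icc 1 K).sigma fun k => k.divisorsAntidiagonal) := by
          rintro ⟨k, d, e⟩ hx ⟨k', d', e'⟩ hx' h
          simp only [mem_coe, mem_sigma, mem_Icc, Nat.mem_divisorsAntidiagonal] at hx hx'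
          simp only [Prod.mk.injEq] at h
          obtain ⟨rfl, rfl⟩ := h
          rw [← hx.2.1, ← hx'.2.1]
        rw [← sum_image (f := fun z : ℕ × ℕ => ((z.1.divisors.card : ℝ) ^ Q) / (z.1 : ℝ) *
          (((z.2.divisors.card : ℝ) ^ Q) / (z.2 : ℝ))) hinj]
        apply sum_le_sum_of_subset_of_nonneg
        · intro z hz
          rw [mem_image] at hz
          obtain ⟨⟨k, d, e⟩, hx, rfl⟩ := hz
          simp only [mem_sigma, mem_Icc, Nat.mem_divisorsAntidiagonal] at hx
          obtain ⟨⟨h1, h2⟩, h3, h4⟩ := hx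
          subst h3
          have hd : 0 < d := Nat.pos_of_ne_zero fun h => by simp [h] at h4
          have he : 0 < e := Nat.pos_of_ne_zero fun h => by simp [h] at h4
          simp only [mem_product, mem_Icc]
          refine ⟨⟨hd, ?_⟩, he, ?_⟩
          · exact (Nat.le_mul_of_pos_right _ he).trans h2
          · exact (Nat.le_mul_of_pos_left _ hd).trans h2
        · intro z _ _
          positivity

/-- the sum of a power of the number of divisors -/
lemma BB_le (Q K : ℕ) (hK : 1 ≤ K) : BB Q K ≤ (1 + Real.log K) ^ 2 ^ Q := by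
  unfold BB
  induction Q with
  | zero =>
    have h5 := harmonic_le_one_add_log K
    rw [harmonic_eq_sum_Icc] at h5
    push_cast at h5
    simpa [one_div] using h5
  | succ Q ih =>
    have h0 : 0 ≤ ∑ k ∈ Icc 1 K, ((k.divisors.card : ℝ) ^ Q) / k :=
      sum_nonneg fun k _ => by positivity
    calc _ ≤ (∑ k ∈ Icc 1 K, ((k.divisors.card : ℝ) ^ Q) / k) ^ 2 := SS_sq Q K
      _ ≤ ((1 + Real.log K) ^ 2 ^ Q) ^ 2 := pow_le_pow_left₀ h0 ih 2
      _ = _ := by rw [← pow_mul, pow_succ]

open Classical in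
/-- pairs `(k, n)` with `k n` in a sparse set -/
theorem pairs (G : ℕ → Prop) (q K N : ℕ) :
    ((((Icc 1 K) ×ˢ (Icc 1 N)).filter (fun z : ℕ × ℕ => G (z.1 * z.2))).card : ℝ) ^ (q + 1) ≤
      (((Icc 1 (K * N)).filter G).card : ℝ) ^ q * ((K * N : ℕ) * BB q K ^ (q + 1)) := by
  set S := (Icc 1 (K * N)).filter G with hS
  have h1 : (((Icc 1 K) ×ˢ (Icc 1 N)).filter (fun z : ℕ × ℕ => G (z.1 * z.2))).card ≤
      ∑ m ∈ S, dK K m := by
    unfold dK
    rw [← card_sigma]
    refine card_le_card_of_injOn (fun z => ⟨z.1 * z.2, z.1⟩) ?_ ?_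
    · intro z hz
      simp only [coe_filter, mem_product, mem_Icc, Set.mem_setOf_eq] at hz
      obtain ⟨⟨⟨a1, a2⟩, b1, b2⟩, c⟩ := hz
      simp only [coe_sigma, Set.mem_sigma_iff, mem_coe, hS, mem_filter, mem_Icc]
      exact ⟨⟨⟨Nat.mul_pos a1 b1, Nat.mul_le_mul a2 b2⟩, c⟩, ⟨a1, a2⟩, dvd_mul_right _ _⟩
    · intro z hz z' hz' h
      simp only [Sigma.mk.injEq, heq_eq_eq] at h
      simp only [coe_filter, mem_product, mem_Icc, Set.mem_setOf_eq] at hz hz'
      obtain ⟨h2, h3⟩ := h
      have h4 : z.2 = z'.2 := by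
        rw [h3] at h2
        exact Nat.eq_of_mul_eq_mul_left hz'.1.1.1 h2
      exact Prod.ext h3 h4
  have h2 : ((((Icc 1 K) ×ˢ (Icc 1 N)).filter (fun z : ℕ × ℕ => G (z.1 * z.2))).card : ℝ) ≤
      ∑ m ∈ S, (dK K m : ℝ) := by exact_mod_cast h1
  have h3 : (∑ m ∈ S, (dK K m : ℝ)) ^ (q + 1) ≤
      (S.card : ℝ) ^ q * ∑ m ∈ S, (dK K m : ℝ) ^ (q + 1) := by
    rcases S.eq_empty_or_nonempty with h | h
    · simp [h]
    · have h4 := pow_sum_div_card_le_sum_pow (s := S) (f := fun m => (dK K m : ℝ))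
        (fun _ _ => Nat.cast_nonneg _) q
      have h5 : (0 : ℝ) < (S.card : ℝ) ^ q := by
        have : 0 < S.card := card_pos.2 h
        positivity
      rw [div_le_iff₀ h5] at h4
      linarith
  have h6 : ∑ m ∈ S, (dK K m : ℝ) ^ (q + 1) ≤ ∑ m ∈ Icc 1 (K * N), (dK K m : ℝ) ^ (q + 1) :=
    sum_le_sum_of_subset_of_nonneg (filter_subset _ _) fun _ _ _ => by positivity
  calc _ ≤ (∑ m ∈ S, (dK K m : ℝ)) ^ (q + 1) := pow_le_pow_left₀ (Nat.cast_nonneg _) h2 _
    _ ≤ (S.card : ℝ) ^ q * ∑ m ∈ S, (dK K m : ℝ) ^ (q + 1) := h3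
    _ ≤ (S.card : ℝ) ^ q * ((K * N : ℕ) * BB q K ^ (q + 1)) :=
        mul_le_mul_of_nonneg_left (h6.trans (moment q K (q + 1) le_rfl _)) (by positivity)

end Pool.Agent.V8H10.LK
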