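import Mathlib
import Pool.Agent.Y959.Sv.Up
import Pool.Agent.N201.SP.Base

set_option autoImplicit false

/-!
# Few primes `p` for which `p ^ 2 - 2` is prime
-/

namespace Pool.Agent.V8H10.LK

open Finset Polynomial
open Pool.Agent.H474R2.PG Pool.Agent.Y959.Sv

lemma irr_X : Irreducible (X : ℤ[X]) := Polynomial.irreducible_X

lemma deg_f2 : (X ^ 2 - C 2 : ℤ[X]).natDegree = 2 := Polynomial.natDegree_X_pow_sub_C

lemma irr_f2 : Irreducible (X ^ 2 - C 2 : ℤ[X]) := by
  have hm : (X ^ 2 - C 2 : ℤ[X]).Monic := Polynomial.monic_X_pow_sub_C 2 (by norm_num)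
  have hI : (Ideal.span {(2 : ℤ)}).IsPrime := by
    rw [Ideal.span_singleton_prime (by norm_num)]
    exact Int.prime_two
  apply Polynomial.irreducible_of_eisenstein_criterion hI
  · rw [hm.leadingCoeff]
    intro h
    rw [Ideal.mem_span_singleton] at h
    norm_num at h
  · intro n hn
    rw [Polynomial.degree_X_pow_sub_C (by norm_num)] at hn
    have hn2 : n < 2 := by exact_mod_cast hn
    rw [Ideal.mem_span_singleton]
    interval_cases n
    · simp
    · simp [Polynomial.coeff_X_pow, Polynomial.coeff_C]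
  · rw [Polynomial.degree_X_pow_sub_C (by norm_num)]
    norm_num
  · intro h
    rw [Ideal.span_singleton_pow, Ideal.mem_span_singleton] at h
    simp at h
  · exact hm.isPrimitive

/-- the sieving conditions -/
def Qs (p n : ℕ) : Prop := p ∣ n ∨ (p : ℤ) ∣ (n : ℤ) ^ 2 - 2

lemma Qs_mod (p n : ℕ) : Qs p n ↔ Qs p (n % p) := by
  unfold Qs
  constructor
  · rintro (h | h)
    · left; exact (Nat.dvd_mod_iff dvd_rfl).2 h
    · right
      have h1 : ((n % p : ℕ) : ℤ) ^ 2 - 2 ≡ (n : ℤ) ^ 2 - 2 [ZMOD p] := by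
        push_cast
        exact ((Int.mod_modEq _ _).pow 2).sub_right 2
      exact (Int.ModEq.dvd_iff h1).2 h
  · rintro (h | h)
    · left; exact (Nat.dvd_mod_iff dvd_rfl).1 h
    · right
      have h1 : ((n % p : ℕ) : ℤ) ^ 2 - 2 ≡ (n : ℤ) ^ 2 - 2 [ZMOD p] := by
        push_cast
        exact ((Int.mod_modEq _ _).pow 2).sub_right 2
      exact (Int.ModEq.dvd_iff h1).1 h

lemma nu_eq (p : ℕ) (hp : p.Prime) (h2 : 2 < p) :
    nu Qs p = rho X p + rho (X ^ 2 - C 2) p := by
  classical
  unfold nu rho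
  rw [← card_union_of_disjoint]
  · congr 1
    ext a
    simp only [mem_filter, mem_union, mem_range, Qs, eval_X, eval_sub, eval_pow, eval_C]
    constructor
    · rintro ⟨h, h1 | h1⟩
      · left; exact ⟨h, by exact_mod_cast h1⟩
      · right; exact ⟨h, h1⟩
    · rintro (⟨h, h1⟩ | ⟨h, h1⟩)
      · exact ⟨h, Or.inl (by exact_mod_cast h1)⟩
      · exact ⟨h, Or.inr h1⟩
  · rw [disjoint_left]
    intro a h1 h3
    simp only [mem_filter, mem_range, eval_X, eval_sub, eval_pow, eval_C] at h1 h3
    have h4 : (p : ℤ) ∣ 2 := by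
      have h5 : (p : ℤ) ∣ (a : ℤ) ^ 2 := (dvd_pow h1.2 (by norm_num))
      have := dvd_sub h5 h3.2
      simpa using this
    have h5 : p ∣ 2 := by exact_mod_cast h4
    have := Nat.le_of_dvd (by norm_num) h5
    omega

lemma rho_le (f : ℤ[X]) (hf : f.Monic) (p : ℕ) (hp : p.Prime) : rho f p ≤ f.natDegree := by
  classical
  haveI : Fact p.Prime := ⟨hp⟩
  have hne : f.map (Int.castRingHom (ZMod p)) ≠ 0 := (hf.map _).ne_zero
  calc rho f p ≤ (f.map (Int.castRingHom (ZMod p))).roots.toFinset.card := by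
        unfold rho
        apply card_le_card_of_injOn (fun a : ℕ => (a : ZMod p))
        · intro a ha
          simp only [coe_filter, mem_range, Set.mem_setOf_eq] at ha
          rw [mem_coe, Multiset.mem_toFinset, mem_roots hne]
          have h1 : ((f.eval (a : ℤ) : ℤ) : ZMod p) = 0 :=
            (ZMod.intCast_zmod_eq_zero_iff_dvd _ p).2 ha.2
          rw [IsRoot.def, eval_map]
          have h2 := Polynomial.eval₂_at_apply (p := f) (Int.castRingHom (ZMod p)) (a : ℤ)
          simp only [eq_intCast, Int.cast_natCast] at h2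
          rw [h2, h1]
        · intro a ha b hb h
          simp only [coe_filter, mem_range, Set.mem_setOf_eq] at ha hb
          have h1 := (ZMod.natCast_eq_natCast_iff' a b p).1 h
          rwa [Nat.mod_eq_of_lt ha.1, Nat.mod_eq_of_lt hb.1] at h1
    _ ≤ Multiset.card (f.map (Int.castRingHom (ZMod p))).roots := Multiset.toFinset_card_le _
    _ ≤ (f.map (Int.castRingHom (ZMod p))).natDegree := card_roots' _
    _ ≤ f.natDegree := natDegree_map_le

lemma nu_le3 (p : ℕ) (hp : p.Prime) (h2 : 2 < p) : nu Qs p ≤ 3 := by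
  rw [nu_eq p hp h2]
  have h1 := rho_le X Polynomial.monic_X p hp
  have h3 := rho_le (X ^ 2 - C 2) (Polynomial.monic_X_pow_sub_C 2 (by norm_num)) p hp
  rw [deg_f2] at h3
  rw [natDegree_X] at h1
  omega

/-- the number of primes `p ≤ X` with `p ^ 2 - 2` prime is `O(X / (log X) ^ 2)` -/
theorem count_le : ∃ C : ℝ, 0 < C ∧ ∀ X : ℕ, 2 ≤ X →
    (((Icc 1 X).filter (fun p : ℕ => p.Prime ∧ (p ^ 2 - 2).Prime)).card : ℝ) ≤
      C * X / Real.log X ^ 2 := by
  classical
  obtain ⟨K, z0', hK, hsv⟩ := up_sieve 3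
  obtain ⟨C1, hC1, hM1⟩ := Pool.Agent.N201.SP.mertens_two X irr_X (by simp)
  obtain ⟨C2, hC2, hM2⟩ := Pool.Agent.N201.SP.mertens_two (X ^ 2 - C 2) irr_f2
    (by rw [deg_f2]; norm_num)
  set z0 := max z0' 2 with hz0
  set S0 : ℝ := ∑ p ∈ (Icc 1 z0), (3 : ℝ) / p with hS0
  have hS0' : 0 ≤ S0 := sum_nonneg fun p _ => by positivity
  -- the product
  have hprod : ∀ y : ℕ, 3 ≤ y →
      ∏ p ∈ (Icc 1 y).filter (fun p => p.Prime ∧ z0 < p), (1 - (nu Qs p : ℝ) / p) ≤
        Real.exp (C1 + C2 + S0) / Real.log y ^ 2 := by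
    intro y hy
    have hy' : (3 : ℝ) ≤ y := by exact_mod_cast hy
    have hly : 1 < Real.log y := by
      have h1 : Real.exp 1 < y := lt_of_lt_of_le (by linarith [Real.exp_one_lt_d9]) hy'
      rwa [Real.lt_log_iff_exp_lt (by linarith)]
    have h1 : ∏ p ∈ (Icc 1 y).filter (fun p => p.Prime ∧ z0 < p), (1 - (nu Qs p : ℝ) / p) ≤
        Real.exp (-∑ p ∈ (Icc 1 y).filter (fun p => p.Prime ∧ z0 < p), (nu Qs p : ℝ) / p) := by
      rw [← sum_neg_distrib, Real.exp_sum]
      apply prod_le_prod
      · intro p hp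
        rw [mem_filter] at hp
        have hp0 : (0 : ℝ) < p := by exact_mod_cast hp.2.1.pos
        have : (nu Qs p : ℝ) / p ≤ 1 := by rw [div_le_one hp0]; exact_mod_cast nu_le Qs p
        linarith
      · intro p _
        have := Real.add_one_le_exp (-((nu Qs p : ℝ) / p))
        linarith
    have h2 : 2 * Real.log (Real.log y) - (C1 + C2 + S0) ≤
        ∑ p ∈ (Icc 1 y).filter (fun p => p.Prime ∧ z0 < p), (nu Qs p : ℝ) / p := by
      have a1 := (abs_le.1 (hM1 y hy')).1
      have a2 := (abs_le.1 (hM2 y hy')).1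
      have a3 : Sg (rho X) y + Sg (rho (X ^ 2 - C 2)) y ≤ S0 +
          ∑ p ∈ (Icc 1 y).filter (fun p => p.Prime ∧ z0 < p), (nu Qs p : ℝ) / p := by
        unfold Sg PR
        rw [Nat.floor_natCast, ← sum_add_distrib,
          ← sum_filter_add_sum_filter_not ((Icc 1 y).filter Nat.Prime) (fun p => p ≤ z0)]
        apply add_le_add
        · calc ∑ p ∈ ((Icc 1 y).filter Nat.Prime).filter (fun p => p ≤ z0),
                ((rho X p : ℝ) / p + (rho (X ^ 2 - C 2) p : ℝ) / p)
              ≤ ∑ p ∈ ((Icc 1 y).filter Nat.Prime).filter (fun p => p ≤ z0), (3 : ℝ) / p := by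
                apply sum_le_sum
                intro p hp
                rw [mem_filter, mem_filter] at hp
                have hp0 : (0 : ℝ) < p := by exact_mod_cast hp.1.2.pos
                rw [← add_div]
                apply div_le_div_of_nonneg_right _ hp0.le
                have b1 := rho_le X Polynomial.monic_X p hp.1.2
                have b3 := rho_le (X ^ 2 - C 2) (Polynomial.monic_X_pow_sub_C 2 (by norm_num))
                  p hp.1.2
                rw [deg_f2] at b3
                rw [natDegree_X] at b1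
                have : rho X p + rho (X ^ 2 - C 2) p ≤ 3 := by omega
                exact_mod_cast this
            _ ≤ S0 := by
                apply sum_le_sum_of_subset_of_nonneg
                · intro p hp
                  rw [mem_filter, mem_filter, mem_Icc] at hp
                  rw [mem_Icc]
                  exact ⟨hp.1.1.1, hp.2⟩
                · intro p _ _
                  positivity
        · apply le_of_eq
          have e : ((Icc 1 y).filter Nat.Prime).filter (fun p => ¬ p ≤ z0) =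
              (Icc 1 y).filter (fun p => p.Prime ∧ z0 < p) := by
            ext p
            simp only [mem_filter, not_le, and_assoc]
          rw [e]
          apply sum_congr rfl
          intro p hp
          rw [mem_filter] at hp
          have : 2 < p := lt_of_le_of_lt (le_max_right _ _) hp.2.2
          rw [nu_eq p hp.2.1 this]
          push_cast
          ring
      linarith
    refine h1.trans ?_
    calc Real.exp (-∑ p ∈ (Icc 1 y).filter (fun p => p.Prime ∧ z0 < p), (nu Qs p : ℝ) / p)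
        ≤ Real.exp ((C1 + C2 + S0) - 2 * Real.log (Real.log y)) :=
          Real.exp_le_exp.2 (by linarith)
      _ = Real.exp (C1 + C2 + S0) / Real.log y ^ 2 := by
          rw [Real.exp_sub]
          congr 1
          rw [two_mul, Real.exp_add, Real.exp_log (by linarith), sq]
  -- choice of `y`
  set K' : ℕ := 2 * K with hK'
  set E : ℝ := Real.exp (C1 + C2 + S0) with hE
  have hE0 : 0 < E := Real.exp_pos _
  have hK'0 : (0 : ℝ) < K' := by
    have : 0 < K' := by omega
    exact_mod_cast this
  refine ⟨32 + 8 * E * K' ^ 2 + Real.log (4 ^ K') ^ 2, by positivity, fun X hX => ?_⟩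
  have hX2 : (2 : ℝ) ≤ X := by exact_mod_cast hX
  have hX0 : (0 : ℝ) < X := by linarith
  have hlX : 0 < Real.log X := Real.log_pos (by linarith)
  have hC0 : 0 ≤ 32 + 8 * E * (K' : ℝ) ^ 2 := by positivity
  rcases lt_or_ge X (4 ^ K') with hlt | hge
  · have h1 : (((Icc 1 X).filter (fun p : ℕ => p.Prime ∧ (p ^ 2 - 2).Prime)).card : ℝ) ≤ X := by
      have := card_filter_le (Icc 1 X) (fun p : ℕ => p.Prime ∧ (p ^ 2 - 2).Prime)
      rw [Nat.card_Icc] at this
      exact_mod_cast this
    refine h1.trans ?_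
    rw [le_div_iff₀ (by positivity)]
    have h2 : Real.log X ≤ Real.log (4 ^ K') := by
      apply Real.log_le_log hX0
      exact_mod_cast hlt.le
    have h3 : Real.log X ^ 2 ≤ Real.log (4 ^ K') ^ 2 := pow_le_pow_left₀ hlX.le h2 2
    nlinarith [mul_nonneg hC0 hX0.le]
  · set t : ℝ := (X : ℝ) ^ (1 / (K' : ℝ)) with ht
    have ht4 : 4 ≤ t := by
      have h1 : ((4 : ℝ) ^ K') ≤ X := by exact_mod_cast hge
      calc (4 : ℝ) = ((4 : ℝ) ^ K') ^ (1 / (K' : ℝ)) := by
            rw [← Real.rpow_natCast, ← Real.rpow_mul (by norm_num), mul_one_div,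
              div_self hK'0.ne', Real.rpow_one]
        _ ≤ t := Real.rpow_le_rpow (by positivity) h1 (by positivity)
    have htK : t ^ K' = X := by
      rw [ht, ← Real.rpow_natCast, ← Real.rpow_mul hX0.le, one_div_mul_cancel hK'0.ne',
        Real.rpow_one]
    set y := ⌊t⌋₊ with hy
    have hyt : (y : ℝ) ≤ t := Nat.floor_le (by linarith)
    have hy4 : 4 ≤ y := Nat.le_floor (by exact_mod_cast ht4)
    have hyt2 : t / 2 ≤ y := by
      have := Nat.lt_floor_add_one t
      rw [← hy] at this
      linarith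
    have hyK' : y ^ K' ≤ X := by
      have : ((y ^ K' : ℕ) : ℝ) ≤ X := by
        push_cast
        rw [← htK]
        exact pow_le_pow_left₀ (Nat.cast_nonneg _) hyt _
      exact_mod_cast this
    have hyK : y ^ K ≤ X := (Nat.pow_le_pow_right (by omega) (by omega)).trans hyK'
    have hlogt : Real.log t = Real.log X / K' := by
      rw [ht, Real.log_rpow hX0]; ring
    have hly : Real.log X / (2 * K') ≤ Real.log y := by
      have h1 : Real.log (t / 2) ≤ Real.log y := Real.log_le_log (by linarith) hyt2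
      have h2 : Real.log (t / 2) = Real.log t - Real.log 2 :=
        Real.log_div (by linarith) (by norm_num)
      have h3 : 2 * Real.log 2 ≤ Real.log t := by
        have : Real.log 4 ≤ Real.log t := Real.log_le_log (by norm_num) ht4
        have e : Real.log 4 = 2 * Real.log 2 := by
          rw [show (4 : ℝ) = 2 ^ 2 by norm_num, Real.log_pow]; norm_num
        linarith
      have h4 : Real.log X / (2 * K') = Real.log t / 2 := by rw [hlogt]; field_simp
      linarith
    have hysq : (y : ℝ) ≤ √(X : ℝ) := by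
      apply Real.le_sqrt_of_sq_le
      have : y ^ 2 ≤ X := (Nat.pow_le_pow_right (by omega) (by omega)).trans hyK'
      exact_mod_cast this
    have hsqrt : √(X : ℝ) ≤ 16 * X / Real.log X ^ 2 := by
      rw [le_div_iff₀ (by positivity)]
      have h1 : Real.log X ≤ (X : ℝ) ^ (1 / 4 : ℝ) / (1 / 4) :=
        Real.log_le_rpow_div hX0.le (by norm_num)
      have h2 : Real.log X ^ 2 ≤ ((X : ℝ) ^ (1 / 4 : ℝ) / (1 / 4)) ^ 2 :=
        pow_le_pow_left₀ hlX.le h1 2
      have h3 : ((X : ℝ) ^ (1 / 4 : ℝ) / (1 / 4)) ^ 2 = 16 * √(X : ℝ) := by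
        rw [div_pow, ← Real.rpow_natCast, ← Real.rpow_mul hX0.le, Real.sqrt_eq_rpow]
        norm_num
        ring
      have h4 : √(X : ℝ) * √(X : ℝ) = X := Real.mul_self_sqrt hX0.le
      nlinarith [Real.sqrt_nonneg (X : ℝ)]
    -- the sieve
    have key := hsv y X (by omega) hyK Qs Qs_mod ((Icc 1 y).filter (fun p => p.Prime ∧ z0 < p))
      (by
        intro p hp
        rw [mem_filter, mem_Icc] at hp
        have h1 : z0' ≤ z0 := le_max_left _ _
        have h2 : 2 ≤ z0 := le_max_right _ _
        exact ⟨hp.2.1, by omega, hp.1.2, nu_le3 p hp.2.1 (by omega)⟩)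
    have hsub : (Icc 1 X).filter (fun p : ℕ => p.Prime ∧ (p ^ 2 - 2).Prime) ⊆
        (Icc 1 y) ∪ (Icc 1 X).filter (fun n : ℕ =>
          ∀ p ∈ (Icc 1 y).filter (fun p => p.Prime ∧ z0 < p), ¬ Qs p n) := by
      intro n hn
      rw [mem_filter, mem_Icc] at hn
      rw [mem_union, mem_filter, mem_Icc, mem_Icc]
      rcases le_or_gt n y with h | h
      · left; exact ⟨hn.1.1, h⟩
      · right
        refine ⟨hn.1, fun p hp hQ => ?_⟩
        rw [mem_filter, mem_Icc] at hp
        rcases hQ with hQ | hQ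
        · have := (Nat.prime_dvd_prime_iff_eq hp.2.1 hn.2.1).1 hQ
          omega
        · have h5 : 2 ≤ n ^ 2 := by nlinarith
          have h6 : (n : ℤ) ^ 2 - 2 = ((n ^ 2 - 2 : ℕ) : ℤ) := by
            push_cast [Nat.cast_sub h5]
            ring
          rw [h6] at hQ
          have h7 : p ∣ n ^ 2 - 2 := by exact_mod_cast hQ
          have h8 := (Nat.prime_dvd_prime_iff_eq hp.2.1 hn.2.2).1 h7
          have h9 : n < n ^ 2 - 2 := by
            have : 5 ≤ n := by omega
            have : n * 5 ≤ n ^ 2 := by nlinarith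
            omega
          omega
    have hcard := (card_le_card hsub).trans (card_union_le _ _)
    rw [Nat.card_Icc, Nat.add_sub_cancel] at hcard
    have hcard' : (((Icc 1 X).filter (fun p : ℕ => p.Prime ∧ (p ^ 2 - 2).Prime)).card : ℝ) ≤
        y + (((Icc 1 X).filter (fun n : ℕ =>
          ∀ p ∈ (Icc 1 y).filter (fun p => p.Prime ∧ z0 < p), ¬ Qs p n)).card : ℝ) := by
      exact_mod_cast hcard
    have hpr := hprod y (by omega)
    have hlyp : 0 < Real.log X / (2 * K') := by positivity
    have h10 : E / Real.log y ^ 2 ≤ E * (4 * K' ^ 2) / Real.log X ^ 2 := by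
      have h11 : (Real.log X / (2 * K')) ^ 2 ≤ Real.log y ^ 2 :=
        pow_le_pow_left₀ hlyp.le hly 2
      calc E / Real.log y ^ 2 ≤ E / (Real.log X / (2 * K')) ^ 2 :=
            div_le_div_of_nonneg_left hE0.le (by positivity) h11
        _ = E * (4 * K' ^ 2) / Real.log X ^ 2 := by
            field_simp
            ring
    have h12 : 2 * ((X : ℝ) * ∏ p ∈ (Icc 1 y).filter (fun p => p.Prime ∧ z0 < p),
        (1 - (nu Qs p : ℝ) / p)) ≤ 8 * E * K' ^ 2 * X / Real.log X ^ 2 := by
      calc 2 * ((X : ℝ) * ∏ p ∈ (Icc 1 y).filter (fun p => p.Prime ∧ z0 < p),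
            (1 - (nu Qs p : ℝ) / p)) ≤ 2 * ((X : ℝ) * (E * (4 * K' ^ 2) / Real.log X ^ 2)) := by
            have := hpr.trans h10
            have h13 := mul_le_mul_of_nonneg_left this hX0.le
            linarith
        _ = 8 * E * K' ^ 2 * X / Real.log X ^ 2 := by ring
    have h14 : 0 ≤ Real.log (4 ^ K') ^ 2 * X / Real.log X ^ 2 := by positivity
    calc _ ≤ (y : ℝ) + _ := hcard'
      _ ≤ √(X : ℝ) + (8 * E * K' ^ 2 * X / Real.log X ^ 2 + √(X : ℝ)) := by
          refine add_le_add hysq (key.trans (add_le_add h12 le_rfl))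
      _ ≤ 16 * X / Real.log X ^ 2 + (8 * E * K' ^ 2 * X / Real.log X ^ 2 +
          16 * X / Real.log X ^ 2) := by linarith
      _ ≤ 16 * X / Real.log X ^ 2 + (8 * E * K' ^ 2 * X / Real.log X ^ 2 +
          16 * X / Real.log X ^ 2) + Real.log (4 ^ K') ^ 2 * X / Real.log X ^ 2 := by linarith
      _ = _ := by ring

end Pool.Agent.V8H10.LK
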