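import Mathlib
import Pool.Agent.V8H10.LK.Sieve
import Pool.Agent.V8H10.LK.Moment

set_option autoImplicit false

/-!
# Few indices `m` for which `p_m ^ 2 - 2` is prime
-/

namespace Pool.Agent.V8H10.LK

open Finset

/-- the `m`-th prime, `pr 1 = 2` -/
noncomputable def pr (m : ℕ) : ℕ := Nat.nth Nat.Prime (m - 1)

lemma pr_prime (m : ℕ) : (pr m).Prime := Nat.prime_nth_prime _

lemma pr_inj {a b : ℕ} (ha : 1 ≤ a) (hb : 1 ≤ b) (h : pr a = pr b) : a = b := by
  unfold pr at h
  have := Nat.nth_injective Nat.infinite_setOf_prime h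
  omega

lemma pr_mono {a b : ℕ} (h : a ≤ b) : pr a ≤ pr b :=
  Nat.nth_monotone Nat.infinite_setOf_prime (by omega)

lemma le_pr (m : ℕ) (hm : 1 ≤ m) : m + 1 ≤ pr m := by
  have := Nat.add_two_le_nth_prime (m - 1)
  unfold pr
  omega

lemma pi_pr (m : ℕ) (hm : 1 ≤ m) : Nat.primeCounting (pr m) = m := by
  unfold pr Nat.primeCounting Nat.primeCounting'
  rw [Nat.count_succ, Nat.count_nth_of_infinite Nat.infinite_setOf_prime,
    if_pos (Nat.prime_nth_prime _)]
  omega

/-- Chebyshev's lower bound -/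
lemma cheb : ∃ c : ℝ, 0 < c ∧ ∀ x : ℕ, 2 ≤ x → c * x / Real.log x ≤ Nat.primeCounting x := by
  have hlog : Filter.Tendsto (fun x : ℕ => Real.log ((x : ℝ) + 1) / x) Filter.atTop (nhds 0) := by
    have h1 : Filter.Tendsto (fun x : ℝ => Real.log x ^ 1 / (1 * x + (-1))) Filter.atTop (nhds 0) :=
      Real.tendsto_pow_log_div_mul_add_atTop 1 (-1) 1 one_ne_zero
    have h2 := h1.comp (Filter.tendsto_atTop_add_const_right _ 1 tendsto_natCast_atTop_atTop :
      Filter.Tendsto (fun x : ℕ => (x : ℝ) + 1) Filter.atTop Filter.atTop)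
    refine h2.congr fun x => ?_
    simp
  have hl2 : 0 < Real.log 2 := Real.log_pos (by norm_num)
  obtain ⟨x0, hx0⟩ := Filter.eventually_atTop.1 (hlog.eventually_le_const
    (show (0 : ℝ) < Real.log 2 / 2 by positivity))
  set x1 := max x0 2 with hx1
  have hx1' : (0 : ℝ) < x1 := by
    have : 2 ≤ x1 := le_max_right _ _
    exact_mod_cast (by omega : 0 < x1)
  refine ⟨min (Real.log 2 / 2) (Real.log 2 / x1), by positivity, fun x hx => ?_⟩
  have hx2 : (2 : ℝ) ≤ x := by exact_mod_cast hx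
  have hlx : 0 < Real.log x := Real.log_pos (by linarith)
  rcases le_or_gt x1 x with h | h
  · have h1 := hx0 x ((le_max_left _ _).trans h)
    rw [div_le_iff₀ (by linarith)] at h1
    refine le_trans ?_ (Chebyshev.pi_ge x)
    apply div_le_div_of_nonneg_right _ hlx.le
    have h2 : min (Real.log 2 / 2) (Real.log 2 / x1) * x ≤ Real.log 2 / 2 * x :=
      mul_le_mul_of_nonneg_right (min_le_left _ _) (by linarith)
    linarith
  · have h1 : (1 : ℝ) ≤ Nat.primeCounting x := by
      have : Nat.primeCounting 2 ≤ Nat.primeCounting x := Nat.monotone_primeCounting hx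
      have e : Nat.primeCounting 2 = 1 := by decide
      rw [e] at this
      exact_mod_cast this
    refine le_trans ?_ h1
    rw [div_le_one hlx]
    have h2 : min (Real.log 2 / 2) (Real.log 2 / x1) * x ≤ Real.log 2 / x1 * x :=
      mul_le_mul_of_nonneg_right (min_le_right _ _) (by linarith)
    have h3 : Real.log 2 / x1 * x ≤ Real.log 2 := by
      rw [div_mul_eq_mul_div, div_le_iff₀ hx1']
      have : (x : ℝ) ≤ x1 := by exact_mod_cast h.le
      nlinarith
    exact h2.trans (h3.trans (Real.log_le_log (by norm_num) hx2))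

/-- the indices -/
def G (m : ℕ) : Prop := (pr m ^ 2 - 2).Prime

open Classical in
theorem index_le : ∃ C : ℝ, 0 < C ∧ ∀ M : ℕ, 2 ≤ M →
    (((Icc 1 M).filter G).card : ℝ) ≤ C * M / Real.log M := by
  obtain ⟨C, hC, hcount⟩ := count_le
  obtain ⟨c, hc, hch⟩ := cheb
  refine ⟨C / c, by positivity, fun M hM => ?_⟩
  have hM2 : (2 : ℝ) ≤ M := by exact_mod_cast hM
  have hlM : 0 < Real.log M := Real.log_pos (by linarith)
  set x := pr M with hx
  have hxM : M ≤ x := by have := le_pr M (by omega); omega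
  have hx0 : (2 : ℝ) ≤ x := by exact_mod_cast hM.trans hxM
  have hlx : Real.log M ≤ Real.log x := Real.log_le_log (by linarith) (by exact_mod_cast hxM)
  have hlx0 : 0 < Real.log x := hlM.trans_le hlx
  have h1 : ((Icc 1 M).filter G).card ≤
      ((Icc 1 x).filter (fun p : ℕ => p.Prime ∧ (p ^ 2 - 2).Prime)).card := by
    apply card_le_card_of_injOn pr
    · intro m hm
      rw [mem_coe, mem_filter, mem_Icc] at hm
      rw [mem_coe, mem_filter, mem_Icc]
      exact ⟨⟨(pr_prime m).one_lt.le, pr_mono hm.1.2⟩, pr_prime m, hm.2⟩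
    · intro a ha b hb h
      rw [mem_coe, mem_filter, mem_Icc] at ha hb
      exact pr_inj ha.1.1 hb.1.1 h
  have h2 := hcount x (hM.trans hxM)
  have h3 := hch x (hM.trans hxM)
  rw [hx, pi_pr M (by omega), ← hx] at h3
  have h4 : (x : ℝ) / Real.log x ≤ M / c := by
    rw [le_div_iff₀ hc]
    calc (x : ℝ) / Real.log x * c = c * x / Real.log x := by ring
      _ ≤ M := h3
  calc (((Icc 1 M).filter G).card : ℝ) ≤ C * x / Real.log x ^ 2 :=
        le_trans (by exact_mod_cast h1) h2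
    _ = C * (x / Real.log x) / Real.log x := by field_simp
    _ ≤ C * (M / c) / Real.log x := by gcongr
    _ ≤ C * (M / c) / Real.log M := by gcongr
    _ = C / c * M / Real.log M := by ring

open Classical in
/-- the count of pairs `(k, n)` -/
theorem pairs_le (ε : ℝ) (hε : 0 < ε) : ∃ η C : ℝ, 0 < η ∧ 0 < C ∧ ∀ N K : ℕ, 3 ≤ N → 1 ≤ K →
    Real.log K ≤ 2 * Real.log N ^ η →
    ((((Icc 1 K) ×ˢ (Icc 1 N)).filter (fun z : ℕ × ℕ => G (z.1 * z.2))).card : ℝ) ≤
      C * K * N * Real.log N ^ (ε / 2 - 1 - η) := by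
  obtain ⟨C1, hC1, hidx⟩ := index_le
  obtain ⟨q, hq⟩ := exists_nat_ge (4 / ε)
  set η : ℝ := ε / (4 * (2 ^ q + 1)) with hη
  have hη0 : 0 < η := by positivity
  refine ⟨η, max C1 1 * 3 ^ 2 ^ q, hη0, by positivity, fun N K hN hK1 hK => ?_⟩
  have hN3 : (3 : ℝ) ≤ N := by exact_mod_cast hN
  have hlN : 1 < Real.log N := by
    have h1 : Real.exp 1 < N := lt_of_lt_of_le (by linarith [Real.exp_one_lt_d9]) hN3
    rwa [Real.lt_log_iff_exp_lt (by linarith)]
  have hlN0 : 0 < Real.log N := by linarith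
  have hK1' : (1 : ℝ) ≤ K := by exact_mod_cast hK1
  set P : ℝ := ((((Icc 1 K) ×ˢ (Icc 1 N)).filter (fun z : ℕ × ℕ => G (z.1 * z.2))).card : ℝ)
    with hP
  have hP0 : 0 ≤ P := Nat.cast_nonneg _
  have h1 := pairs G q K N
  have hKN : N ≤ K * N := Nat.le_mul_of_pos_left _ hK1
  have h2 := hidx (K * N) (by omega)
  have h3 : C1 * ((K * N : ℕ) : ℝ) / Real.log ((K * N : ℕ) : ℝ) ≤
      max C1 1 * (K * N : ℕ) / Real.log N := by
    have h4 : Real.log N ≤ Real.log ((K * N : ℕ) : ℝ) :=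
      Real.log_le_log (by linarith) (by exact_mod_cast hKN)
    have h5 : C1 ≤ max C1 1 := le_max_left _ _
    gcongr
  set D := max C1 1 with hD
  have hD1 : 1 ≤ D := le_max_right _ _
  have hD0 : 0 < D := by linarith
  have hB := BB_le q K hK1
  have hB0 : 0 ≤ BB q K := sum_nonneg fun k _ => by positivity
  set W : ℝ := 3 ^ 2 ^ q * Real.log N ^ (η * 2 ^ q) with hW
  have hW0 : 0 < W := by positivity
  have hB2 : BB q K ≤ W := by
    refine hB.trans ?_
    have h4 : 1 ≤ Real.log N ^ η := Real.one_le_rpow hlN.le hη0.le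
    have h5 : 1 + Real.log K ≤ 3 * Real.log N ^ η := by linarith
    have h6 : 0 ≤ Real.log K := Real.log_nonneg hK1'
    calc (1 + Real.log K) ^ 2 ^ q ≤ (3 * Real.log N ^ η) ^ 2 ^ q :=
          pow_le_pow_left₀ (by linarith) h5 _
      _ = W := by
          rw [hW, mul_pow, ← Real.rpow_natCast (Real.log N ^ η), ← Real.rpow_mul hlN0.le]
          push_cast
          rfl
  have hKN0 : (0 : ℝ) < (K * N : ℕ) := by
    have : 0 < K * N := by omega
    exact_mod_cast this
  -- the main inequality for the `q + 1`-st power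
  have h6 : P ^ (q + 1) ≤ (D * (K * N : ℕ) * W *
      Real.log N ^ (-((q : ℝ) / (q + 1)))) ^ (q + 1) := by
    have hq1 : (0 : ℝ) < (q : ℝ) + 1 := by positivity
    have e1 : (Real.log N ^ (-((q : ℝ) / (q + 1)))) ^ (q + 1) = (Real.log N ^ q)⁻¹ := by
      rw [← Real.rpow_natCast (Real.log N ^ _), ← Real.rpow_mul hlN0.le]
      push_cast
      rw [neg_mul, div_mul_cancel₀ _ hq1.ne', Real.rpow_neg hlN0.le, Real.rpow_natCast]
    calc P ^ (q + 1) ≤ (((Icc 1 (K * N)).filter G).card : ℝ) ^ q *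
          ((K * N : ℕ) * BB q K ^ (q + 1)) := h1
      _ ≤ (D * (K * N : ℕ) / Real.log N) ^ q * ((K * N : ℕ) * W ^ (q + 1)) := by
          apply mul_le_mul
          · exact pow_le_pow_left₀ (Nat.cast_nonneg _) (h2.trans h3) _
          · apply mul_le_mul_of_nonneg_left _ hKN0.le
            exact pow_le_pow_left₀ hB0 hB2 _
          · positivity
          · positivity
      _ = D ^ q * (K * N : ℕ) ^ (q + 1) * W ^ (q + 1) * (Real.log N ^ q)⁻¹ := by
          rw [div_pow, mul_pow]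
          ring
      _ ≤ D ^ (q + 1) * (K * N : ℕ) ^ (q + 1) * W ^ (q + 1) * (Real.log N ^ q)⁻¹ := by
          have : D ^ q ≤ D ^ (q + 1) := pow_le_pow_right₀ hD1 (by omega)
          gcongr
      _ = _ := by
          simp only [mul_pow]
          rw [e1]
  have h7 : P ≤ D * (K * N : ℕ) * W * Real.log N ^ (-((q : ℝ) / (q + 1))) :=
    le_of_pow_le_pow_left₀ (by omega) (by positivity) h6
  have h8 : Real.log N ^ (η * 2 ^ q) * Real.log N ^ (-((q : ℝ) / (q + 1))) ≤
      Real.log N ^ (ε / 2 - 1 - η) := by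
    rw [← Real.rpow_add hlN0]
    apply Real.rpow_le_rpow_of_exponent_le hlN.le
    have hq1 : (0 : ℝ) < (q : ℝ) + 1 := by positivity
    have h9 : 1 - (q : ℝ) / (q + 1) = 1 / (q + 1) := by field_simp; ring
    have h10 : 1 / ((q : ℝ) + 1) ≤ ε / 4 := by
      rw [div_le_div_iff₀ hq1 (by norm_num)]
      rw [div_le_iff₀ hε] at hq
      nlinarith
    have h11 : η * 2 ^ q + η = ε / 4 := by
      rw [hη]
      field_simp
    linarith
  calc P ≤ D * (K * N : ℕ) * W * Real.log N ^ (-((q : ℝ) / (q + 1))) := h7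
    _ = D * 3 ^ 2 ^ q * K * N *
        (Real.log N ^ (η * 2 ^ q) * Real.log N ^ (-((q : ℝ) / (q + 1)))) := by
        rw [hW]; push_cast; ring
    _ ≤ D * 3 ^ 2 ^ q * K * N * Real.log N ^ (ε / 2 - 1 - η) :=
        mul_le_mul_of_nonneg_left h8 (by positivity)

open Classical in
/-- the number of good `k ≤ K` -/
noncomputable def RR (K n : ℕ) : ℕ := ((Icc 1 K).filter (fun k => G (k * n))).card

lemma RR_mono (n : ℕ) {K K' : ℕ} (h : K ≤ K') : RR K n ≤ RR K' n := by
  classical
  unfold RR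
  apply card_le_card
  intro k hk
  rw [mem_filter, mem_Icc] at hk ⊢
  exact ⟨⟨hk.1.1, hk.1.2.trans h⟩, hk.2⟩

open Classical in
lemma sum_RR (K N : ℕ) : ∑ n ∈ Icc 1 N, RR K n =
    (((Icc 1 K) ×ˢ (Icc 1 N)).filter (fun z : ℕ × ℕ => G (z.1 * z.2))).card := by
  unfold RR
  rw [card_filter, sum_product_right]
  apply sum_congr rfl
  intro n _
  rw [card_filter]

open Classical in
/-- the exceptional `n` -/
theorem exceptions_le (ε : ℝ) (hε : 0 < ε) (hε1 : ε < 1) : ∃ η C : ℝ, 0 < η ∧ ∀ N : ℕ, 3 ≤ N →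
    (((Icc 1 N).filter (fun n : ℕ => ∃ K : ℕ, (K : ℝ) ≤ Real.exp (Real.log n ^ η) ∧
      K * Real.log n ^ (ε - 1) < RR K n)).card : ℝ) ≤ C * N * Real.log N ^ (-ε / 2) := by
  obtain ⟨η, C, hη, hC, hp⟩ := pairs_le ε hε
  refine ⟨η, 8 * C + 1, hη, fun N hN => ?_⟩
  have hN3 : (3 : ℝ) ≤ N := by exact_mod_cast hN
  have hlN : 1 < Real.log N := by
    have h1 : Real.exp 1 < N := lt_of_lt_of_le (by linarith [Real.exp_one_lt_d9]) hN3
    rwa [Real.lt_log_iff_exp_lt (by linarith)]
  have hlN0 : 0 < Real.log N := by linarith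
  have hLη : 1 ≤ Real.log N ^ η := Real.one_le_rpow hlN.le hη.le
  set J : ℕ := ⌊3 * Real.log N ^ η⌋₊ with hJ
  set E : ℕ → Finset ℕ := fun j => (Icc 1 N).filter (fun n : ℕ =>
    (2 : ℝ) ^ j / 2 * Real.log N ^ (ε - 1) < RR (2 ^ j) n) with hE
  have hl2 : 0.69 < Real.log 2 := by linarith [Real.log_two_gt_d9]
  have hl2' : Real.log 2 < 0.7 := by linarith [Real.log_two_lt_d9]
  have hsub : (Icc 1 N).filter (fun n : ℕ => ∃ K : ℕ, (K : ℝ) ≤ Real.exp (Real.log n ^ η) ∧
      K * Real.log n ^ (ε - 1) < RR K n) ⊆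
      {1} ∪ (range (J + 1)).biUnion (fun j => if Real.log ((2 ^ j : ℕ) : ℝ) ≤
        2 * Real.log N ^ η then E j else ∅) := by
    intro n hn
    rw [mem_filter, mem_Icc] at hn
    obtain ⟨⟨hn1, hnN⟩, K, hK, hR⟩ := hn
    rw [mem_union, mem_singleton]
    rcases Nat.lt_or_ge n 2 with h | h
    · left; omega
    right
    have hn2 : (2 : ℝ) ≤ n := by exact_mod_cast h
    have hln0 : 0 < Real.log n := Real.log_pos (by linarith)
    have hlnN : Real.log n ≤ Real.log N := Real.log_le_log (by linarith) (by exact_mod_cast hnN)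
    have hK0 : 1 ≤ K := by
      rcases Nat.eq_zero_or_pos K with h0 | h0
      · subst h0
        unfold RR at hR
        simp at hR
      · exact h0
    have hK0' : (1 : ℝ) ≤ K := by exact_mod_cast hK0
    set j := Nat.clog 2 K with hj
    have hKj : K ≤ 2 ^ j := Nat.le_pow_clog (by norm_num) K
    have hjK : (2 : ℝ) ^ j / 2 ≤ K := by
      rcases Nat.lt_or_ge 1 K with h1 | h1
      · have h2 : 2 ^ (Nat.clog 2 K).pred < K := Nat.pow_pred_clog_lt_self (by norm_num) h1
        have h3 : 0 < j := Nat.clog_pos (by norm_num) h1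
        have h4 : 2 ^ j = 2 * 2 ^ (j - 1) := by
          rw [← pow_succ']; congr 1; omega
        have h5 : 2 ^ j ≤ 2 * K := by
          rw [h4]
          exact Nat.mul_le_mul_left _ h2.le
        have h6 : (2 : ℝ) ^ j ≤ 2 * K := by exact_mod_cast h5
        linarith
      · have : K = 1 := by omega
        rw [hj, this]
        simp
        norm_num
    have hlogK : Real.log K ≤ Real.log N ^ η := by
      calc Real.log K ≤ Real.log (Real.exp (Real.log n ^ η)) :=
            Real.log_le_log (by linarith) hK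
        _ = Real.log n ^ η := Real.log_exp _
        _ ≤ Real.log N ^ η := Real.rpow_le_rpow hln0.le hlnN hη.le
    have h2j0 : (0 : ℝ) < 2 ^ j := by positivity
    have hlogj : Real.log ((2 ^ j : ℕ) : ℝ) ≤ 2 * Real.log N ^ η := by
      have h1 : Real.log ((2 ^ j : ℕ) : ℝ) ≤ Real.log (2 * K) := by
        apply Real.log_le_log
        · push_cast; exact h2j0
        · push_cast; linarith
      rw [Real.log_mul (by norm_num) (by linarith)] at h1
      linarith
    have hjJ : j ≤ J := by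
      apply Nat.le_floor
      have h1 : Real.log ((2 ^ j : ℕ) : ℝ) = j * Real.log 2 := by
        push_cast
        rw [Real.log_pow]
      rw [h1] at hlogj
      nlinarith [(Nat.cast_nonneg j : (0 : ℝ) ≤ j)]
    rw [mem_biUnion]
    refine ⟨j, mem_range.2 (by omega), ?_⟩
    rw [if_pos hlogj, hE]
    simp only [mem_filter, mem_Icc]
    refine ⟨⟨hn1, hnN⟩, ?_⟩
    have h7 : Real.log N ^ (ε - 1) ≤ Real.log n ^ (ε - 1) :=
      (Real.rpow_le_rpow_iff_of_neg hlN0 hln0 (by linarith)).2 hlnN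
    have h8 : (RR K n : ℝ) ≤ RR (2 ^ j) n := by exact_mod_cast RR_mono n hKj
    calc (2 : ℝ) ^ j / 2 * Real.log N ^ (ε - 1) ≤ K * Real.log n ^ (ε - 1) := by
          apply mul_le_mul hjK h7 (by positivity) (by linarith)
      _ < RR K n := hR
      _ ≤ RR (2 ^ j) n := h8
  have hEj : ∀ j : ℕ, Real.log ((2 ^ j : ℕ) : ℝ) ≤ 2 * Real.log N ^ η →
      ((E j).card : ℝ) ≤ 2 * C * N * Real.log N ^ (-ε / 2 - η) := by
    intro j hj
    have h1 := hp N (2 ^ j) hN Nat.one_le_two_pow hj
    rw [← sum_RR] at h1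
    set t : ℝ := (2 : ℝ) ^ j / 2 * Real.log N ^ (ε - 1) with ht
    have ht0 : 0 < t := by positivity
    have h2 : (E j).card * t ≤ ∑ n ∈ Icc 1 N, (RR (2 ^ j) n : ℝ) := by
      calc (E j).card * t = ∑ n ∈ E j, t := by rw [sum_const, nsmul_eq_mul]
        _ ≤ ∑ n ∈ E j, (RR (2 ^ j) n : ℝ) := by
            apply sum_le_sum
            intro n hn
            exact (mem_filter.1 hn).2.le
        _ ≤ _ := sum_le_sum_of_subset_of_nonneg (filter_subset _ _) fun _ _ _ => by positivity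
    push_cast at h1
    have h3 : (E j).card * t ≤ C * 2 ^ j * N * Real.log N ^ (ε / 2 - 1 - η) := h2.trans h1
    have h4 : C * 2 ^ j * N * Real.log N ^ (ε / 2 - 1 - η) =
        (2 * C * N * Real.log N ^ (-ε / 2 - η)) * t := by
      have : Real.log N ^ (ε / 2 - 1 - η) =
          Real.log N ^ (-ε / 2 - η) * Real.log N ^ (ε - 1) := by
        rw [← Real.rpow_add hlN0]; congr 1; ring
      rw [this, ht]
      ring
    rw [h4] at h3
    exact le_of_mul_le_mul_right h3 ht0
  have hE0 : 0 ≤ 2 * C * N * Real.log N ^ (-ε / 2 - η) := by positivity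
  have hcard : (((Icc 1 N).filter (fun n : ℕ => ∃ K : ℕ, (K : ℝ) ≤ Real.exp (Real.log n ^ η) ∧
      K * Real.log n ^ (ε - 1) < RR K n)).card : ℝ) ≤
      1 + (J + 1) * (2 * C * N * Real.log N ^ (-ε / 2 - η)) := by
    have h1 := (card_le_card hsub).trans (card_union_le _ _)
    have h2 := h1.trans (add_le_add_right card_biUnion_le _)
    rw [card_singleton] at h2
    have h3 : (((Icc 1 N).filter (fun n : ℕ => ∃ K : ℕ, (K : ℝ) ≤ Real.exp (Real.log n ^ η) ∧
      K * Real.log n ^ (ε - 1) < RR K n)).card : ℝ) ≤ 1 + ∑ j ∈ range (J + 1),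
        (((if Real.log ((2 ^ j : ℕ) : ℝ) ≤ 2 * Real.log N ^ η then E j else ∅) :
          Finset ℕ).card : ℝ) := by exact_mod_cast h2
    refine h3.trans ?_
    apply add_le_add le_rfl
    calc _ ≤ ∑ j ∈ range (J + 1), (2 * C * N * Real.log N ^ (-ε / 2 - η)) := by
          apply sum_le_sum
          intro j _
          split_ifs with h
          · exact hEj j h
          · simpa using hE0
      _ = _ := by rw [sum_const, card_range, nsmul_eq_mul]; push_cast; ring
  have hJle : (J : ℝ) + 1 ≤ 4 * Real.log N ^ η := by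
    have : (J : ℝ) ≤ 3 * Real.log N ^ η := Nat.floor_le (by positivity)
    linarith
  have hone : (1 : ℝ) ≤ N * Real.log N ^ (-ε / 2) := by
    have h1 : Real.log N ≤ N := (Real.log_le_sub_one_of_pos (by linarith)).trans (by linarith)
    have h2 : Real.log N ^ (-1 : ℝ) ≤ Real.log N ^ (-ε / 2) :=
      Real.rpow_le_rpow_of_exponent_le hlN.le (by linarith)
    rw [Real.rpow_neg_one] at h2
    calc (1 : ℝ) = Real.log N * (Real.log N)⁻¹ := by field_simp
      _ ≤ N * Real.log N ^ (-ε / 2) := by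
          apply mul_le_mul h1 h2 (by positivity) (by linarith)
  calc _ ≤ 1 + ((J : ℝ) + 1) * (2 * C * N * Real.log N ^ (-ε / 2 - η)) := hcard
    _ ≤ 1 + (4 * Real.log N ^ η) * (2 * C * N * Real.log N ^ (-ε / 2 - η)) := by
        apply add_le_add le_rfl
        exact mul_le_mul_of_nonneg_right hJle hE0
    _ = 1 + 8 * C * N * (Real.log N ^ η * Real.log N ^ (-ε / 2 - η)) := by ring
    _ = 1 + 8 * C * N * Real.log N ^ (-ε / 2) := by
        rw [← Real.rpow_add hlN0]
        congr 3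
        ring
    _ ≤ N * Real.log N ^ (-ε / 2) + 8 * C * N * Real.log N ^ (-ε / 2) := by linarith
    _ = (8 * C + 1) * N * Real.log N ^ (-ε / 2) := by ring

end Pool.Agent.V8H10.LK
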