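import Pool.Agent.V8H10.LK.Runs
import Pool.Agent.R498.MP.StrC

set_option autoImplicit false

/-!
# Many strings of primes with index in a residue class and almost prime values
-/

namespace Pool.Agent.V8H10.LK

open Finset Filter Polynomial
open Pool.Agent.Y677.RSZ (Sys poly_all)
open Pool.Agent.R498.MP (AP nth_in_window)

theorem strings_count (f : ℤ[X]) (hz : ∀ n : ℤ, n ≠ 0 → f.eval n ≠ 0)
    (hadm : ∀ p : ℕ, p.Prime → ∃ n : ℤ, ¬ (p : ℤ) ∣ n * f.eval n)
    (q a : ℕ) (hq : Squarefree q)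
    (ha : ∀ p : ℕ, p.Prime → p ∣ q → ¬ (p : ℤ) ∣ (a : ℤ) * f.eval (a : ℤ)) (m : ℕ) :
    ∃ (K r B : ℕ) (δ : ℝ), 0 < δ ∧ ∀ᶠ N : ℕ in atTop, ∃ H ⊆ Finset.range K, m < H.card ∧
      ∃ A : Finset ℕ, (N : ℝ) / Real.log N ^ B ≤ A.card ∧ ∀ n ∈ A, N < n ∧ n + K ≤ 2 * N ∧
        (∀ y ≤ K, (n + y).Prime ↔ y ∈ H) ∧
        ∀ h ∈ H, n + h ≡ a [MOD q] ∧ AP r ((N : ℝ) ^ δ) (f.eval ((n + h : ℕ) : ℤ)) := by
  classical
  have hf : f ≠ 0 := by
    intro h
    apply hz 1 one_ne_zero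
    rw [h, eval_zero]
  have hP : (X * f : ℤ[X]) ≠ 0 := mul_ne_zero X_ne_zero hf
  have hev : ∀ n : ℤ, (X * f : ℤ[X]).eval n = n * f.eval n := fun n => by
    rw [eval_mul, eval_X]
  obtain ⟨g, hg⟩ := poly_all (X * f) hP (fun p hp => by
    obtain ⟨n, hn⟩ := hadm p hp
    exact ⟨n, by rwa [hev]⟩)
  obtain ⟨K, δ, hδ, B, hmain⟩ := runs_count (X * f) (g + q + 1) (by omega)
    (Pool.Agent.Y677.RSZ.Sys.mono hg (by omega)) (fun p _ n hd => by
      rw [hev]
      exact hd.mul_right _) q a hq (by omega) (fun p hp hpq => by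
      rw [hev]
      exact ha p hp hpq) m
  obtain ⟨Kf, D, hKD⟩ := Pool.Agent.W123.RU.Poly.eval_bound f
  obtain ⟨n₀, hn₀⟩ := Pool.Agent.Y677.RSZ.ne_zero_ev f hf
  obtain ⟨r, hr⟩ := exists_nat_ge ((2 * D + 1 : ℝ) / δ)
  refine ⟨K, r, B, δ, hδ, ?_⟩
  have hB := hmain (Finset.range K) (by rw [card_range]) (Finset.range (K + 1)) (by
    intro h _ y _ hyh
    rw [hev]
    have h1 : (h : ℤ) - y ≠ 0 := by
      intro h2
      apply hyh
      have : (h : ℤ) = y := by linarith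
      exact_mod_cast this.symm
    exact mul_ne_zero h1 (hz _ h1)) K
  filter_upwards [hB, eventually_ge_atTop (Kf + n₀ + 3)] with N hN hNK
  obtain ⟨H, hH, hHm, A, hA1, hA2⟩ := hN
  refine ⟨H, hH, hHm, A, hA1, fun n hn => ?_⟩
  obtain ⟨g1, g2, g3, g4, g5⟩ := hA2 n hn
  refine ⟨g1, g2, fun y hy => ⟨fun hp => ?_, fun hyH => (g3 y hyH).1⟩, fun h hh => ⟨(g3 h hh).2, ?_⟩⟩
  · by_contra hcon
    exact g5 y (Finset.mem_range.2 (by omega)) hcon hp
  · have h9' : ∀ p : ℕ, p.Prime → (p : ℤ) ∣ f.eval ((n + h : ℕ) : ℤ) → (N : ℝ) ^ δ ≤ p := by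
      intro p hp hpd
      apply g4 h hh p hp
      rw [hev]
      exact hpd.mul_left _
    have hhK : h < K := Finset.mem_range.1 (hH hh)
    have hx : n + h ≤ 2 * N := by omega
    have hNr : (3 : ℝ) ≤ N := by
      have : 3 ≤ N := by omega
      exact_mod_cast this
    have hKr : (Kf : ℝ) ≤ N := by
      have : Kf ≤ N := by omega
      exact_mod_cast this
    have hxr : ((n + h : ℕ) : ℝ) ≤ 2 * N := by exact_mod_cast hx
    have h8 := hKD ((n + h : ℕ) : ℤ)
    have h9 : ((f.eval ((n + h : ℕ) : ℤ)).natAbs : ℝ) =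
        |((f.eval ((n + h : ℕ) : ℤ) : ℤ) : ℝ)| := by
      rw [← Int.cast_abs, Int.abs_eq_natAbs]
      simp
    have h10 : ((f.eval ((n + h : ℕ) : ℤ)).natAbs : ℝ) ≤
        (N : ℝ) ^ ((2 * D + 1 : ℕ) : ℝ) := by
      rw [h9]
      refine h8.trans ?_
      rw [Real.rpow_natCast, pow_succ, pow_mul, mul_comm]
      have h11 : 1 + |(((n + h : ℕ) : ℤ) : ℝ)| ≤ (N : ℝ) ^ 2 := by
        rw [Int.cast_natCast, abs_of_nonneg (Nat.cast_nonneg _)]
        nlinarith
      have h12 : (0 : ℝ) ≤ 1 + |(((n + h : ℕ) : ℤ) : ℝ)| := by positivity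
      gcongr
    have hne : f.eval ((n + h : ℕ) : ℤ) ≠ 0 := hz _ (by
      have : 0 < n + h := by omega
      exact_mod_cast this.ne')
    have h13 := Pool.Agent.R498.MT.omega_le N (f.eval ((n + h : ℕ) : ℤ)).natAbs δ
      ((2 * D + 1 : ℕ) : ℝ) (by omega) hδ (by
        rw [Int.natAbs_ne_zero]
        exact hne) (fun p hp hpd => h9' p hp (Int.natCast_dvd.2 hpd)) h10
    have h14 : ((2 * D + 1 : ℕ) : ℝ) / δ ≤ r := by
      push_cast
      exact hr
    exact ⟨hne, by exact_mod_cast h13.trans h14, h9'⟩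

/-- Among the primes with index in any residue class there are MANY strings of consecutive terms,
in bounded intervals, all in a given class, at which `f` is almost prime. -/
theorem index_count (f : ℤ[X]) (hz : ∀ n : ℤ, n ≠ 0 → f.eval n ≠ 0)
    (hadm : ∀ p : ℕ, p.Prime → ∃ n : ℤ, ¬ (p : ℤ) ∣ n * f.eval n)
    (q e : ℕ) (hq : Squarefree q)
    (he : ∀ p : ℕ, p.Prime → p ∣ q → ¬ (p : ℤ) ∣ (e : ℤ) * f.eval (e : ℤ))
    (u r : ℕ) (hu : 1 ≤ u) :
    ∃ (C R B : ℕ) (δ : ℝ), 0 < δ ∧ ∀ a : ℕ, ∀ᶠ N : ℕ in atTop, ∃ T : Finset ℕ,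
      (N : ℝ) / Real.log N ^ B ≤ T.card ∧ ∀ k ∈ T,
      N < Nat.nth Nat.Prime (u * k + a) ∧ Nat.nth Nat.Prime (u * (k + r) + a) ≤ 2 * N ∧
      Nat.nth Nat.Prime (u * (k + r) + a) ≤ Nat.nth Nat.Prime (u * k + a) + C ∧
      ∀ i ≤ r, Nat.nth Nat.Prime (u * (k + i) + a) ≡ e [MOD q] ∧
        AP R ((N : ℝ) ^ δ) (f.eval ((Nat.nth Nat.Prime (u * (k + i) + a) : ℕ) : ℤ)) := by
  classical
  obtain ⟨C, R, B, δ, hδ, hmain⟩ := strings_count f hz hadm q e hq he (u * (r + 2))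
  refine ⟨C, R, B + 1, δ, hδ, fun a => ?_⟩
  have hinf := Nat.infinite_setOfPred_prime
  have hlogN : Tendsto (fun N : ℕ => Real.log N) atTop atTop :=
    Real.tendsto_log_atTop.comp tendsto_natCast_atTop_atTop
  filter_upwards [hmain, eventually_ge_atTop (Nat.nth Nat.Prime (a + u)),
    hlogN.eventually_ge_atTop ((C : ℝ) + 1)] with N hN hN3 hNlog
  obtain ⟨H, hH, hHm, A, hA1, hA2⟩ := hN
  have hHC : ∀ h ∈ H, h ≤ C := fun h hh => (Finset.mem_range.1 (hH hh)).le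
  obtain ⟨κ, hκ⟩ : ∃ κ : ℕ → ℕ, κ = fun n => (Nat.count Nat.Prime n - a) / u + 1 := ⟨_, rfl⟩
  have key : ∀ n ∈ A, ∀ i ≤ r, ∃ h ∈ H, Nat.nth Nat.Prime (u * (κ n + i) + a) = n + h := by
    intro n hn
    obtain ⟨h1, h2, g1, g2⟩ := hA2 n hn
    obtain ⟨c, hc⟩ : ∃ c, c = Nat.count Nat.Prime n := ⟨_, rfl⟩
    have hw := nth_in_window n C H hHC g1
    rw [← hc] at hw
    have hA1' : a + u ≤ c := by
      by_contra hcon
      push Not at hcon
      rw [hc] at hcon
      have h6 : n ≤ Nat.nth Nat.Prime (a + u) := by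
        by_contra h7
        push Not at h7
        have h8 := Nat.count_strict_mono (Nat.prime_nth_prime (a + u)) h7
        rw [Nat.count_nth_of_infinite hinf] at h8
        omega
      omega
    obtain ⟨k, hk⟩ : ∃ k, k = (c - a) / u + 1 := ⟨_, rfl⟩
    have hkn : κ n = k := by rw [hκ, hk, hc]
    have hk1 : u * ((c - a) / u) ≤ c - a := Nat.mul_div_le _ _
    have hk2 : c - a < u * ((c - a) / u + 1) := Nat.lt_mul_div_succ _ hu
    rw [← hk] at hk2
    have hk3 : u * k ≤ c - a + u := by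
      rw [hk, mul_add, mul_one]
      omega
    intro i hi
    rw [hkn]
    have hi1 : u * (k + i) ≤ c - a + u + u * r := by
      have h6 : u * (k + i) = u * k + u * i := by ring
      have h7 : u * i ≤ u * r := Nat.mul_le_mul_left _ hi
      omega
    have hi2 : c ≤ u * (k + i) + a := by
      have h6 : u * (k + i) = u * k + u * i := by ring
      omega
    have e1 : u * (r + 2) = u * r + u + u := by ring
    exact hw (u * (k + i) + a) hi2 (by omega)
  refine ⟨A.image κ, ?_, ?_⟩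
  · have hfib : ∀ k ∈ A.image κ, (A.filter (fun n => κ n = k)).card ≤ C + 1 := by
      intro k _
      have hsub : A.filter (fun n => κ n = k) ⊆
          Finset.Icc (Nat.nth Nat.Prime (u * (k + 0) + a) - C)
            (Nat.nth Nat.Prime (u * (k + 0) + a)) := by
        intro n hn
        rw [mem_filter] at hn
        obtain ⟨h, hh, he'⟩ := key n hn.1 0 (Nat.zero_le _)
        rw [hn.2] at he'
        have := hHC h hh
        rw [Finset.mem_Icc, he']
        omega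
      refine (card_le_card hsub).trans ?_
      rw [Nat.card_Icc]
      omega
    have h1 : A.card ≤ (C + 1) * (A.image κ).card := Finset.card_le_mul_card_image A (C + 1) hfib
    have h2 : (A.card : ℝ) ≤ (C + 1) * ((A.image κ).card : ℝ) := by exact_mod_cast h1
    have hC0 : (0 : ℝ) < (C : ℝ) + 1 := by positivity
    have hlog0 : 0 < Real.log N := by linarith
    have h3 : (N : ℝ) / Real.log N ^ (B + 1) = ((N : ℝ) / Real.log N ^ B) / Real.log N := by
      rw [pow_succ, div_div]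
    rw [h3, div_le_iff₀ hlog0]
    calc (N : ℝ) / Real.log N ^ B ≤ A.card := hA1
      _ ≤ (C + 1) * ((A.image κ).card : ℝ) := h2
      _ ≤ ((A.image κ).card : ℝ) * Real.log N := by
          rw [mul_comm]
          gcongr
  · intro k hk
    rw [mem_image] at hk
    obtain ⟨n, hn, rfl⟩ := hk
    obtain ⟨h1, h2, g1, g2⟩ := hA2 n hn
    obtain ⟨h0, hh0, he0⟩ := key n hn 0 (Nat.zero_le _)
    rw [add_zero] at he0
    obtain ⟨hr0, hhr0, her0⟩ := key n hn r le_rfl
    have hb0 := hHC h0 hh0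
    have hbr := hHC hr0 hhr0
    refine ⟨by omega, by omega, by omega, fun i hi => ?_⟩
    obtain ⟨h, hh, he'⟩ := key n hn i hi
    rw [he']
    exact g2 h hh

end Pool.Agent.V8H10.LK
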