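import Pool.Agent.R498.MP.PA14

set_option autoImplicit false

/-!
# Many strings of primes in a residue class with rough values

The proof is the one of `Pool.Agent.R498.MP.prime_runs_cls` without its last step.
-/

namespace Pool.Agent.V8H10.LK

open Finset Filter Polynomial
open Pool.Agent.TH423.SH (PS PIj)
open Pool.Agent.W23.DC
open Pool.Agent.Y882
open Pool.Agent.Y882.PX
open Pool.Agent.Y882.KW
open Pool.Agent.Y677.RSZ
open Pool.Agent.R498.MT
open Pool.Agent.R498.MP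

open Classical in
theorem runs_count (P : ℤ[X]) (g : ℕ) (hg1 : 1 ≤ g)
    (hF : Pool.Agent.Y677.RSZ.Sys g (fun n => P.eval n))
    (hFid : ∀ p : ℕ, p.Prime → ∀ n : ℤ, (p : ℤ) ∣ n → (p : ℤ) ∣ P.eval n)
    (q a₀ : ℕ) (hq : Squarefree q) (hqg : q ≤ g)
    (ha₀ : ∀ p : ℕ, p.Prime → p ∣ q → ¬ (p : ℤ) ∣ P.eval (a₀ : ℤ)) (m : ℕ) :
    ∃ (K₀ : ℕ) (δ : ℝ), 0 < δ ∧ ∃ B : ℕ, ∀ HH : Finset ℕ, K₀ ≤ HH.card → ∀ E : Finset ℕ,
      (∀ h ∈ HH, ∀ y ∈ E, y ≠ h → P.eval ((h : ℤ) - y) ≠ 0) → ∀ C₀ : ℕ,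
      ∀ᶠ N : ℕ in atTop, ∃ H ⊆ HH, m < H.card ∧ ∃ A : Finset ℕ,
        (N : ℝ) / Real.log N ^ B ≤ A.card ∧ ∀ n ∈ A, N < n ∧ n + C₀ ≤ 2 * N ∧
          (∀ h ∈ H, (n + h).Prime ∧ n + h ≡ a₀ [MOD q]) ∧
          (∀ h ∈ H, ∀ p : ℕ, p.Prime → (p : ℤ) ∣ P.eval ((n + h : ℕ) : ℤ) → (N : ℝ) ^ δ ≤ p) ∧
          ∀ y ∈ E, y ∉ H → ¬ (n + y).Prime := by
  obtain ⟨k, W, hW0, hWsq, hWp, hgW, ε₁, c, hε, hε24, hc, hcore⟩ :=
    coreP (fun n => P.eval n) g hF hFid m
  have hW2 : 2 ≤ W := by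
    have h1 : 2 ∣ W := hWp 2 Nat.prime_two (by
      have : 1 ≤ g * 2 ^ k := Nat.mul_pos hg1 (by positivity)
      omega)
    exact Nat.le_of_dvd hW0 h1
  refine ⟨W * 2 ^ k, ε₁, hε, 2 * (g * 2 ^ k) + 2, ?_⟩
  intro HH hHH E hEH C₀
  obtain ⟨r, t, hrW, ht, hmem⟩ := shifts W (2 ^ k) hW0 HH hHH
  have hqW : q ∣ W := by
    have h1 : ∏ p ∈ q.primeFactors, p ∣ W := by
      apply Finset.prod_primes_dvd
      · intro p hp
        exact (Nat.prime_of_mem_primeFactors hp).prime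
      · intro p hp
        apply hWp p (Nat.prime_of_mem_primeFactors hp)
        have h2 : p ≤ q := Nat.le_of_mem_primeFactors hp
        have h3 : g ≤ g * 2 ^ k := Nat.le_mul_of_pos_right _ (by positivity)
        omega
    rwa [Nat.prod_primeFactors_of_squarefree hq] at h1
  obtain ⟨b₁, hb₁W, hb₁q, hb₁⟩ := exbc hF W q a₀ hW0 hWsq hqW ha₀
  obtain ⟨b, hbd⟩ : ∃ b, b = W + b₁ := ⟨_, rfl⟩
  have hb : ∀ p : ℕ, p.Prime → p ∣ W → ¬ (p : ℤ) ∣ (fun n : ℤ => P.eval n) b := by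
    intro p hp hpW h
    apply hb₁ p hp hpW
    refine (per_mod (F := fun n => P.eval n) hF.per hp b b₁ ?_).1 h
    rw [hbd]
    have : W ≡ 0 [MOD p] := (Nat.modEq_zero_iff_dvd).2 hpW
    simpa using this.add_right b₁
  obtain ⟨⟨Y₀, hcore1⟩, hcore2⟩ := hcore t ht b hb
  have hW0r : (0 : ℝ) < W := by exact_mod_cast hW0
  -- the other primes
  obtain ⟨E', hE'⟩ : ∃ E', E' = E.filter (fun y => ∀ i, W * t i + r ≠ y) := ⟨_, rfl⟩
  have hdisc : ∀ᶠ N : ℕ in atTop, ∀ y ∈ E', ∀ M L z : ℕ, Win W N M L → (z : ℝ) < (N : ℝ) ^ ε₁ →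
        0 < Vp (fun n => P.eval n) W b z t →
        1 ≤ Real.log N ^ (2 * (g * 2 ^ k) + 1) * Vp (fun n => P.eval n) W b z t →
        ∀ s : Finset ℕ,
        (∀ K ∈ s, K ∈ Ioc M (M + L) ∧ (W * K + (b - r + y)).Prime ∧
          ∀ p ∈ PS W z, ∀ i, ¬ (p : ℤ) ∣ P.eval ((W * (K + t i) + b : ℕ) : ℤ)) →
        (s.card : ℝ) ≤ c / (2 * (E'.card + 1)) * (L * Vp (fun n => P.eval n) W b z t) := by
    rw [Finset.eventually_all]
    intro y hy
    rw [hE', mem_filter] at hy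
    obtain ⟨Y₁, hY₁⟩ := hcore2 (b - r + y) (by
      intro j
      have e : ((W * t j + b : ℕ) : ℤ) - ((b - r + y : ℕ) : ℤ) = ((W * t j + r : ℕ) : ℤ) - y := by
        have : r ≤ b := by omega
        push_cast [this]
        ring
      show P.eval _ ≠ 0
      rw [e]
      exact hEH _ (hmem j) y hy.1 (fun h => hy.2 j h.symm)) (c / (2 * (E'.card + 1)))
      (by positivity)
    filter_upwards [eventually_ge_atTop Y₁] with N hN M L z h1 h2 h3 h4 s hs
    exact hY₁ N hN M L z h1 h2 h3 h4 s hs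
  have hlogN : Tendsto (fun N : ℕ => Real.log N) atTop atTop :=
    Real.tendsto_log_atTop.comp tendsto_natCast_atTop_atTop
  filter_upwards [hdisc, numsE W r b Y₀ 0 0 0 C₀ hW2 hrW,
    hlogN.eventually_ge_atTop (1 + 4 * W * (2 * 2 ^ 2 ^ k) / c)] with N hN1 hN2 hNlog
  obtain ⟨n1, n2, n3, n4, n5, n6, n7, n8, n9, n10⟩ := hN2
  obtain ⟨M, hM⟩ : ∃ M : ℕ, M = (N + r) / W := ⟨_, rfl⟩
  obtain ⟨L, hL⟩ : ∃ L : ℕ, L = N / (2 * W) := ⟨_, rfl⟩
  rw [← hM, ← hL] at n5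
  rw [← hL] at n6 n7 n8 n9
  have hNr : (16 : ℝ) ≤ N := by exact_mod_cast n2
  have hN0 : (0 : ℝ) < N := by linarith
  have hN1r : (1 : ℝ) ≤ N := by linarith
  have hlog0 : 0 < Real.log N := by
    have : 0 ≤ 4 * W * (2 * 2 ^ 2 ^ k) / c := by positivity
    linarith
  obtain ⟨z, hz⟩ : ∃ z : ℕ, z + 1 = ⌈(N : ℝ) ^ ε₁⌉₊ := by
    have : 1 ≤ ⌈(N : ℝ) ^ ε₁⌉₊ := Nat.ceil_pos.2 (by positivity)
    exact ⟨⌈(N : ℝ) ^ ε₁⌉₊ - 1, by omega⟩
  have hz1 : (z : ℝ) < (N : ℝ) ^ ε₁ := by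
    have h1 := Nat.ceil_lt_add_one (show 0 ≤ (N : ℝ) ^ ε₁ by positivity)
    rw [← hz] at h1
    push_cast at h1
    linarith
  have hz2 : (N : ℝ) ^ ε₁ ≤ z + 1 := by
    have h1 := Nat.le_ceil ((N : ℝ) ^ ε₁)
    rw [← hz] at h1
    push_cast at h1
    exact h1
  obtain ⟨hgd, hV0, hV1⟩ := hcore1 N n1 M L z n5 hz1 hz2
  have hWL1 : 1 ≤ W * L := by
    have h1 : (1 : ℝ) ≤ ((W * L : ℕ) : ℝ) := le_trans (Real.one_le_rpow hN1r (by norm_num)) n7
    exact_mod_cast h1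
  have hL1 : 1 ≤ L := by
    rcases Nat.eq_zero_or_pos L with h | h
    · rw [h, mul_zero] at hWL1
      omega
    · exact h
  have hLr : (0 : ℝ) < L := by exact_mod_cast hL1
  obtain ⟨Hs, A, hHs, hA1, hA2⟩ := manyP (fun n => P.eval n) W b M L z N k m
    (2 * (g * 2 ^ k) + 1) ε₁ c (Vp (fun n => P.eval n) W b z t) t E' (fun y => b - r + y) hc hV0
    hLr hz1 hgd (fun y hy s hs => hN1 y hy M L z n5 hz1 hV0 hV1 s hs)
  have hWM : W * M ≤ N + r := by rw [hM]; exact Nat.mul_div_le _ _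
  have hWM1 : N + r < W * (M + 1) := by
    rw [hM]
    exact Nat.lt_mul_div_succ (N + r) hW0
  have hWM2 : W * (M + 1) = W * M + W := by ring
  have hWML : W * (M + L) = W * M + W * L := by ring
  have hbds : ∀ K ∈ Ioc M (M + L), N + r < W * K ∧ W * K + b ≤ N + r + W * L + b := by
    intro K hK
    rw [mem_Ioc] at hK
    have h2 : W * (M + 1) ≤ W * K := Nat.mul_le_mul_left _ (by omega)
    have h3 : W * K ≤ W * (M + L) := Nat.mul_le_mul_left _ hK.2
    exact ⟨by omega, by omega⟩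
  have hrb : r ≤ b := by omega
  refine ⟨Hs.image (fun i => W * t i + r), ?_, ?_, A.image (fun K => W * K + b - r), ?_, ?_⟩
  · intro h hh
    rw [mem_image] at hh
    obtain ⟨i, _, rfl⟩ := hh
    exact hmem i
  · rw [card_image_of_injective _ (fun i j hij => by
      have h1 : W * t i + r = W * t j + r := hij
      have h2 : W * t i = W * t j := by omega
      exact ht (Nat.eq_of_mul_eq_mul_left hW0 h2))]
    exact hHs
  · rw [card_image_of_injective _ (fun K K' hKK => by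
      have h1 : W * K + b - r = W * K' + b - r := hKK
      have h2 : W * K = W * K' := by omega
      exact Nat.eq_of_mul_eq_mul_left hW0 h2)]
    refine le_trans ?_ hA1
    -- `N / log ^ B ≤ c' L V`
    have hLN : (N : ℝ) ≤ 4 * W * L := by
      obtain ⟨w1, w2, w3, w4, w5⟩ := n5
      have h1 : 2 * W * (N / (2 * W)) ≤ N := Nat.mul_div_le _ _
      have h4 : N < 2 * W * (N / (2 * W)) + 2 * W := by
        have := Nat.lt_mul_div_succ N (show 0 < 2 * W by omega)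
        rw [Nat.mul_add, Nat.mul_one] at this
        exact this
      rw [← hL] at h4
      have h5 : 2 * W ≤ 2 * W * L := Nat.le_mul_of_pos_right _ hL1
      have h6 : N ≤ 4 * W * L := by
        have : 4 * W * L = 2 * W * L + 2 * W * L := by ring
        omega
      exact_mod_cast h6
    have hpow : (0 : ℝ) < Real.log N ^ (2 * (g * 2 ^ k) + 1) := by positivity
    have h7 : 1 / Real.log N ^ (2 * (g * 2 ^ k) + 1) ≤ Vp (fun n => P.eval n) W b z t := by
      rw [div_le_iff₀ hpow]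
      linarith
    have h8 : 4 * W * (2 * 2 ^ 2 ^ k) / c ≤ Real.log N := by linarith
    rw [div_le_iff₀ hc] at h8
    calc (N : ℝ) / Real.log N ^ (2 * (g * 2 ^ k) + 2)
        ≤ (4 * W * L) / Real.log N ^ (2 * (g * 2 ^ k) + 2) :=
          div_le_div_of_nonneg_right hLN (by positivity)
      _ = (4 * W / Real.log N) * (L * (1 / Real.log N ^ (2 * (g * 2 ^ k) + 1))) := by
          rw [show 2 * (g * 2 ^ k) + 2 = (2 * (g * 2 ^ k) + 1) + 1 by ring, pow_succ]
          field_simp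
      _ ≤ (c / (2 * 2 ^ 2 ^ k)) * (L * Vp (fun n => P.eval n) W b z t) := by
          apply mul_le_mul _ (by gcongr) (by positivity) (by positivity)
          rw [div_le_div_iff₀ hlog0 (by positivity)]
          linarith
  · intro n hn
    rw [mem_image] at hn
    obtain ⟨K, hK, rfl⟩ := hn
    obtain ⟨hK1', hK2', hK3', hK4'⟩ := hA2 K hK
    have hb0 := hbds K hK1'
    have e : ∀ i, W * K + b - r + (W * t i + r) = W * (K + t i) + b := by
      intro i
      have : W * (K + t i) = W * K + W * t i := by ring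
      omega
    refine ⟨by omega, by omega, ?_, ?_, ?_⟩
    · intro h hh
      rw [mem_image] at hh
      obtain ⟨i, hi, rfl⟩ := hh
      rw [e i]
      refine ⟨(hK3' i).2 hi, ?_⟩
      have h1 : W * (K + t i) ≡ 0 [MOD q] := (Nat.modEq_zero_iff_dvd).2 (hqW.mul_right _)
      have h2 : W ≡ 0 [MOD q] := (Nat.modEq_zero_iff_dvd).2 hqW
      have h3 := (h1.add (h2.add hb₁q))
      rw [hbd]
      simpa using h3
    · intro h hh p hp hpd
      rw [mem_image] at hh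
      obtain ⟨i, hi, rfl⟩ := hh
      rw [e i] at hpd
      by_contra hcon
      push Not at hcon
      exact hK2' p hp hcon i hpd
    · intro y hy hyH
      by_cases hyE : y ∈ E'
      · have h1 := hK4' y hyE
        have e2 : W * K + b - r + y = W * K + (b - r + y) := by omega
        rw [e2]
        exact h1
      · rw [hE', mem_filter] at hyE
        push Not at hyE
        obtain ⟨i, hi⟩ := hyE hy
        rw [← hi, e i]
        intro hpr
        apply hyH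
        rw [mem_image]
        exact ⟨i, (hK3' i).1 hpr, hi⟩

end Pool.Agent.V8H10.LK
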